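import Pool.Agent.Helper95.PW.Stmts

/-! Pointwise calculus of `w = sqrt (|y|^2 + s^2)` (helper62). -/

set_option autoImplicit false

namespace Pool.Agent.Helper95.PW

open MeasureTheory Filter

namespace WF

/-- `|y|^2 + s^2` -/
noncomputable def qf (s : ℝ) (y : R3) : ℝ := y 0 ^ 2 + y 1 ^ 2 + y 2 ^ 2 + s ^ 2

/-- `sqrt (|y|^2 + s^2)` -/
noncomputable def wf (s : ℝ) (y : R3) : ℝ := Real.sqrt (qf s y)

theorem nr_sq (y : R3) : nr y ^ 2 = y 0 ^ 2 + y 1 ^ 2 + y 2 ^ 2 := by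
  rw [nr, Real.sq_sqrt (by positivity)]

theorem qf_eq (s : ℝ) (y : R3) : qf s y = nr y ^ 2 + s ^ 2 := by rw [nr_sq, qf]

theorem qf_pos (s : ℝ) (hs : 0 < s) (y : R3) : 0 < qf s y := by
  unfold qf
  positivity

theorem wf_pos (s : ℝ) (hs : 0 < s) (y : R3) : 0 < wf s y := Real.sqrt_pos.2 (qf_pos s hs y)

theorem wf_sq (s : ℝ) (hs : 0 < s) (y : R3) : wf s y ^ 2 = qf s y :=
  Real.sq_sqrt (qf_pos s hs y).le

theorem wf_sq' (s : ℝ) (hs : 0 < s) (y : R3) :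
    wf s y ^ 2 = y 0 ^ 2 + y 1 ^ 2 + y 2 ^ 2 + s ^ 2 := wf_sq s hs y

theorem qf_sm (s : ℝ) : ContDiff ℝ (⊤ : ℕ∞) (qf s) := by
  unfold qf
  fun_prop

theorem wf_sm (s : ℝ) (hs : 0 < s) : ContDiff ℝ (⊤ : ℕ∞) (wf s) := by
  unfold wf
  exact (qf_sm s).sqrt (fun y => (qf_pos s hs y).ne')

/-- derivative along a coordinate as a one dimensional derivative -/
theorem pd_eq_deriv (g : R3 → ℝ) (i : Fin 3) (y : R3) (hg : DifferentiableAt ℝ g y) :
    HasDerivAt (fun t : ℝ => g (Function.update y i t)) (pd i g y) (y i) := by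
  have h1 : HasDerivAt (fun t : ℝ => Function.update y i t) (Pi.single i (1 : ℝ)) (y i) :=
    hasDerivAt_update y i (y i)
  have h2 : HasFDerivAt g (fderiv ℝ g y) (Function.update y i (y i)) := by
    rw [Function.update_eq_self]
    exact hg.hasFDerivAt
  exact h2.comp_hasDerivAt (y i) h1

theorem pd_of (g : R3 → ℝ) (i : Fin 3) (y : R3) (d : ℝ) (hg : DifferentiableAt ℝ g y)
    (h : HasDerivAt (fun t : ℝ => g (Function.update y i t)) d (y i)) : pd i g y = d :=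
  (pd_eq_deriv g i y hg).unique h

theorem pd_add (i : Fin 3) (f g : R3 → ℝ) (y : R3) (hf : DifferentiableAt ℝ f y)
    (hg : DifferentiableAt ℝ g y) :
    pd i (fun y => f y + g y) y = pd i f y + pd i g y := by
  unfold pd
  rw [fderiv_fun_add hf hg]
  rfl

theorem pd_mul (i : Fin 3) (f g : R3 → ℝ) (y : R3) (hf : DifferentiableAt ℝ f y)
    (hg : DifferentiableAt ℝ g y) :
    pd i (fun y => f y * g y) y = pd i f y * g y + f y * pd i g y := by
  unfold pd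
  rw [fderiv_fun_mul hf hg]
  simp only [add_apply, smul_apply, smul_eq_mul]
  ring

theorem pd_const (i : Fin 3) (c : ℝ) (y : R3) : pd i (fun _ => c) y = 0 := by
  unfold pd
  simp

theorem pd_cmul (i : Fin 3) (c : ℝ) (f : R3 → ℝ) (y : R3) (hf : DifferentiableAt ℝ f y) :
    pd i (fun y => c * f y) y = c * pd i f y := by
  rw [pd_mul i (fun _ => c) f y (differentiableAt_const c) hf, pd_const]
  ring

theorem pd_coord (i j : Fin 3) (y : R3) :
    pd i (fun y : R3 => y j) y = if i = j then 1 else 0 := by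
  unfold pd
  have h : HasFDerivAt (fun y : R3 => y j) (ContinuousLinearMap.proj (R := ℝ)
      (φ := fun _ : Fin 3 => ℝ) j) y := (ContinuousLinearMap.proj (R := ℝ)
      (φ := fun _ : Fin 3 => ℝ) j).hasFDerivAt
  rw [h.fderiv]
  simp only [ContinuousLinearMap.proj_apply]
  rw [Pi.single_apply]
  simp only [eq_comm]

theorem pd_pow (i : Fin 3) (f : R3 → ℝ) (n : ℕ) (y : R3) (hf : DifferentiableAt ℝ f y) :
    pd i (fun y => f y ^ n) y = n * f y ^ (n - 1) * pd i f y := by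
  unfold pd
  rw [(hf.hasFDerivAt.pow n).fderiv]
  simp only [smul_apply, smul_eq_mul]
  try ring

/-- `1 / w` -/
noncomputable def vf (s : ℝ) (y : R3) : ℝ := (wf s y)⁻¹

theorem vf_pos (s : ℝ) (hs : 0 < s) (y : R3) : 0 < vf s y := inv_pos.2 (wf_pos s hs y)

theorem vf_sm (s : ℝ) (hs : 0 < s) : ContDiff ℝ (⊤ : ℕ∞) (vf s) := by
  unfold vf
  exact (wf_sm s hs).inv (fun y => (wf_pos s hs y).ne')

theorem wv (s : ℝ) (hs : 0 < s) (y : R3) : wf s y * vf s y = 1 :=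
  mul_inv_cancel₀ (wf_pos s hs y).ne'

theorem qv (s : ℝ) (hs : 0 < s) (y : R3) :
    (y 0 ^ 2 + y 1 ^ 2 + y 2 ^ 2 + s ^ 2) * vf s y ^ 2 = 1 := by
  rw [← wf_sq' s hs y, ← mul_pow, wv s hs y, one_pow]

theorem dif {f : R3 → ℝ} (h : ContDiff ℝ (⊤ : ℕ∞) f) (y : R3) : DifferentiableAt ℝ f y :=
  (h.differentiable (by simp)) y

theorem pd_qf (s : ℝ) (i : Fin 3) (y : R3) : pd i (qf s) y = 2 * y i := by
  have hc : ∀ j : Fin 3, DifferentiableAt ℝ (fun y : R3 => y j) y := fun j => by fun_prop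
  have e : qf s = fun y => ((y 0 ^ 2 + y 1 ^ 2) + y 2 ^ 2) + s ^ 2 := rfl
  rw [e, pd_add i _ _ y (by fun_prop) (by fun_prop), pd_add i _ _ y (by fun_prop) (by fun_prop),
    pd_add i _ _ y (by fun_prop) (by fun_prop), pd_const, pd_pow i _ 2 y (hc 0),
    pd_pow i _ 2 y (hc 1), pd_pow i _ 2 y (hc 2), pd_coord, pd_coord, pd_coord]
  fin_cases i <;> simp

theorem pd_wf (s : ℝ) (hs : 0 < s) (i : Fin 3) : pd i (wf s) = fun y => y i * vf s y := by
  funext y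
  have h1 : pd i (wf s) y = 1 / (2 * wf s y) * pd i (qf s) y := by
    unfold pd
    have : wf s = fun y => Real.sqrt (qf s y) := rfl
    rw [this, fderiv_sqrt (dif (qf_sm s) y) (qf_pos s hs y).ne']
    simp only [smul_apply, smul_eq_mul]
  rw [h1, pd_qf, vf]
  have := (wf_pos s hs y).ne'
  field_simp

theorem pd_vf (s : ℝ) (hs : 0 < s) (i : Fin 3) : pd i (vf s) = fun y => -(y i * vf s y ^ 3) := by
  funext y
  have h1 : pd i (fun y => wf s y * vf s y) y = 0 := by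
    have : (fun y => wf s y * vf s y) = fun _ => (1 : ℝ) := funext fun y => wv s hs y
    rw [this, pd_const]
  rw [pd_mul i _ _ y (dif (wf_sm s hs) y) (dif (vf_sm s hs) y), pd_wf s hs i] at h1
  have h2 := wv s hs y
  have h3 : pd i (vf s) y = (wf s y * pd i (vf s) y) * vf s y := by
    calc pd i (vf s) y = (wf s y * vf s y) * pd i (vf s) y := by rw [h2, one_mul]
      _ = (wf s y * pd i (vf s) y) * vf s y := by ring
  have h4 : wf s y * pd i (vf s) y = -(y i * vf s y * vf s y) := by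
    simp only at h1
    linarith
  rw [h3, h4]
  ring

theorem cs (j : Fin 3) : ContDiff ℝ (⊤ : ℕ∞) (fun y : R3 => y j) := by fun_prop

theorem pd2_wf (s : ℝ) (hs : 0 < s) (i j : Fin 3) :
    pd j (pd i (wf s)) = fun y => (if j = i then 1 else 0) * vf s y - y i * y j * vf s y ^ 3 := by
  funext y
  rw [pd_wf s hs i, pd_mul j _ _ y (dif (cs i) y) (dif (vf_sm s hs) y), pd_coord, pd_vf s hs j]
  ring

theorem lap_wf (s : ℝ) (hs : 0 < s) : lap (wf s) = fun y => 2 * vf s y + s ^ 2 * vf s y ^ 3 := by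
  funext y
  unfold lap
  simp only [Fin.sum_univ_three, pd2_wf s hs, if_true]
  have h := qv s hs y
  linear_combination (-vf s y) * h

theorem pd_lap_wf (s : ℝ) (hs : 0 < s) (i : Fin 3) : pd i (lap (wf s)) =
    fun y => -(2 * y i * vf s y ^ 3) - 3 * s ^ 2 * y i * vf s y ^ 5 := by
  funext y
  have hv := vf_sm s hs
  rw [lap_wf s hs, pd_add i _ _ y (dif (contDiff_const.mul hv) y)
    (dif (contDiff_const.mul (hv.pow 3)) y), pd_cmul i 2 _ y (dif hv y),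
    pd_cmul i (s ^ 2) (fun y => vf s y ^ 3) y (dif (hv.pow 3) y), pd_pow i _ 3 y (dif hv y),
    pd_vf s hs i]
  push_cast
  ring

theorem lap_lap_wf (s : ℝ) (hs : 0 < s) : lap (lap (wf s)) = fun y => -(15 * s ^ 4 * vf s y ^ 7) := by
  funext y
  have hv := vf_sm s hs
  have h1 : ∀ i : Fin 3, pd i (pd i (lap (wf s))) y =
      -(2 * vf s y ^ 3) + 6 * y i ^ 2 * vf s y ^ 5 - 3 * s ^ 2 * vf s y ^ 5 +
        15 * s ^ 2 * y i ^ 2 * vf s y ^ 7 := by
    intro i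
    have e : pd i (lap (wf s)) = fun y => (-2) * (y i * vf s y ^ 3) +
        (-3 * s ^ 2) * (y i * vf s y ^ 5) := by
      rw [pd_lap_wf s hs i]
      funext y
      ring
    rw [e, pd_add i _ _ y (dif (contDiff_const.mul ((cs i).mul (hv.pow 3))) y)
      (dif (contDiff_const.mul ((cs i).mul (hv.pow 5))) y),
      pd_cmul i (-2) _ y (dif ((cs i).mul (hv.pow 3)) y),
      pd_cmul i (-3 * s ^ 2) _ y (dif ((cs i).mul (hv.pow 5)) y),
      pd_mul i _ _ y (dif (cs i) y) (dif (hv.pow 3) y),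
      pd_mul i _ _ y (dif (cs i) y) (dif (hv.pow 5) y), pd_coord, pd_pow i _ 3 y (dif hv y),
      pd_pow i _ 5 y (dif hv y), pd_vf s hs i]
    simp only [if_true]
    push_cast
    ring
  unfold lap at h1 ⊢
  simp only [Fin.sum_univ_three] at h1 ⊢
  rw [h1 0, h1 1, h1 2]
  have h := qv s hs y
  linear_combination (6 * vf s y ^ 3 + 15 * s ^ 2 * vf s y ^ 5) * h

theorem mor_eq (s : ℝ) (hs : 0 < s) (y : R3) : mor s y = 15 / 2 * s ^ 4 * vf s y ^ 7 := by
  have h : wf s y ^ 7 = qf s y ^ (7 / 2 : ℝ) := by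
    unfold wf
    rw [Real.sqrt_eq_rpow, ← Real.rpow_natCast (qf s y ^ (1 / 2 : ℝ)) 7,
      ← Real.rpow_mul (qf_pos s hs y).le]
    norm_num
  unfold mor vf
  rw [← qf_eq, inv_pow, h, div_eq_mul_inv]

theorem lap_lap_mor (s : ℝ) (hs : 0 < s) (y : R3) : lap (lap (wf s)) y = -(2 * mor s y) := by
  rw [lap_lap_wf s hs, mor_eq s hs]
  ring

/-- `|∇ w| ≤ 1` -/
theorem grd_le (s : ℝ) (hs : 0 < s) (y : R3) : ∑ i, pd i (wf s) y ^ 2 ≤ 1 := by
  simp only [Fin.sum_univ_three, pd_wf s hs]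
  have h := qv s hs y
  have h2 : 0 ≤ s ^ 2 * vf s y ^ 2 := by positivity
  nlinarith

theorem lap_pos (s : ℝ) (hs : 0 < s) (y : R3) : 0 ≤ lap (wf s) y := by
  rw [lap_wf s hs]
  have := vf_pos s hs y
  positivity

theorem lap_le (s : ℝ) (hs : 0 < s) (y : R3) : lap (wf s) y ≤ 3 * vf s y := by
  rw [lap_wf s hs]
  have h := qv s hs y
  have hv := vf_pos s hs y
  have h1 : s ^ 2 * vf s y ^ 2 ≤ 1 := by
    have : 0 ≤ (y 0 ^ 2 + y 1 ^ 2 + y 2 ^ 2) * vf s y ^ 2 := by positivity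
    nlinarith
  have h2 : s ^ 2 * vf s y ^ 3 = (s ^ 2 * vf s y ^ 2) * vf s y := by ring
  have h3 : (s ^ 2 * vf s y ^ 2) * vf s y ≤ 1 * vf s y := mul_le_mul_of_nonneg_right h1 hv.le
  simp only
  linarith

theorem nr_le_wf (s : ℝ) (y : R3) : nr y ≤ wf s y := by
  unfold nr wf qf
  exact Real.sqrt_le_sqrt (by nlinarith [sq_nonneg s])

/-- convexity -/
theorem convex (s : ℝ) (hs : 0 < s) (y v : R3) :
    0 ≤ ∑ i, ∑ j, pd j (pd i (wf s)) y * (v i * v j) := by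
  simp only [Fin.sum_univ_three, pd2_wf s hs]
  have h := qv s hs y
  have hv := vf_pos s hs y
  have e : (0 : ℝ) ≤ vf s y ^ 3 * (s ^ 2 * (v 0 ^ 2 + v 1 ^ 2 + v 2 ^ 2) +
      (y 0 * v 1 - y 1 * v 0) ^ 2 + (y 0 * v 2 - y 2 * v 0) ^ 2 +
      (y 1 * v 2 - y 2 * v 1) ^ 2) := by positivity
  refine e.trans (le_of_eq ?_)
  have h3 : vf s y = vf s y ^ 3 * (y 0 ^ 2 + y 1 ^ 2 + y 2 ^ 2 + s ^ 2) := by
    calc vf s y = vf s y * ((y 0 ^ 2 + y 1 ^ 2 + y 2 ^ 2 + s ^ 2) * vf s y ^ 2) := by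
          rw [h, mul_one]
      _ = vf s y ^ 3 * (y 0 ^ 2 + y 1 ^ 2 + y 2 ^ 2 + s ^ 2) := by ring
  have e01 : ((0 : Fin 3) = 1) = False := by simp
  simp only [Fin.isValue, if_true, show ¬ ((0 : Fin 3) = 1) by decide,
    show ¬ ((0 : Fin 3) = 2) by decide, show ¬ ((1 : Fin 3) = 0) by decide,
    show ¬ ((1 : Fin 3) = 2) by decide, show ¬ ((2 : Fin 3) = 0) by decide,
    show ¬ ((2 : Fin 3) = 1) by decide, if_false]
  linear_combination (-(v 0 ^ 2 + v 1 ^ 2 + v 2 ^ 2)) * h3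

end WF

end Pool.Agent.Helper95.PW
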